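import Pool.Agent.H43.G.R_seed8.Y957.VK.Stm

/-!
VK-DA: first application of Hoelder's inequality to the bilinear Weyl sum.
-/

set_option autoImplicit false

namespace Pool.Agent.Y309.VK

open Finset
open Pool.Agent.Y957.VK

/-- the additive character -/
noncomputable def ea (u : ℝ) : ℂ := Complex.exp (2 * Real.pi * Complex.I * (u : ℂ))

theorem ea_zero : ea 0 = 1 := by simp [ea]

theorem ea_add (u v : ℝ) : ea (u + v) = ea u * ea v := by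
  unfold ea
  rw [← Complex.exp_add]
  push_cast
  ring_nf

theorem ea_sum {ι : Type} (s : Finset ι) (f : ι → ℝ) : ea (∑ i ∈ s, f i) = ∏ i ∈ s, ea (f i) := by
  classical
  induction s using Finset.induction_on with
  | empty => simp [ea_zero]
  | insert a s ha ih => rw [Finset.sum_insert ha, Finset.prod_insert ha, ea_add, ih]

theorem ea_conj (u : ℝ) : (starRingEnd ℂ) (ea u) = ea (-u) := by
  unfold ea
  rw [← Complex.exp_conj]
  congr 1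
  have h2 : (starRingEnd ℂ) 2 = 2 := Complex.conj_eq_iff_real.2 ⟨2, by norm_num⟩
  simp only [map_mul, Complex.conj_ofReal, Complex.conj_I, h2, Complex.ofReal_neg]
  ring

/-- the phase -/
noncomputable def ph (r : ℕ) (α : ℕ → ℝ) (x y : ℕ) : ℝ :=
  ∑ j : Fin r, α (j + 1) * (x : ℝ) ^ ((j : ℕ) + 1) * (y : ℝ) ^ ((j : ℕ) + 1)

theorem ph_eq (r : ℕ) (α : ℕ → ℝ) (x y : ℕ) :
    ∑ j ∈ Finset.Icc 1 r, α j * ((x : ℝ) * y) ^ j = ph r α x y := by
  unfold ph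
  rw [Fin.sum_univ_eq_sum_range (fun j => α (j + 1) * (x : ℝ) ^ (j + 1) * (y : ℝ) ^ (j + 1)) r]
  have h : Finset.Icc 1 r = Finset.Ico 1 (r + 1) := by
    ext i; simp only [Finset.mem_Icc, Finset.mem_Ico]; omega
  rw [h, Finset.sum_Ico_eq_sum_range]
  simp only [Nat.add_sub_cancel]
  refine Finset.sum_congr rfl fun j _ => ?_
  rw [add_comm 1 j, mul_pow, mul_assoc]

/-- the differences of the power sums -/
def vv (s r : ℕ) (z : (Fin s → ℕ) × (Fin s → ℕ)) : Fin r → ℤ := fun j =>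
  ∑ i, (z.1 i : ℤ) ^ ((j : ℕ) + 1) - ∑ i, (z.2 i : ℤ) ^ ((j : ℕ) + 1)

theorem ph_sub (s r : ℕ) (α : ℕ → ℝ) (x : ℕ) (z : (Fin s → ℕ) × (Fin s → ℕ)) :
    ∑ i, ph r α x (z.1 i) - ∑ i, ph r α x (z.2 i) =
      ∑ j : Fin r, α (j + 1) * vv s r z j * (x : ℝ) ^ ((j : ℕ) + 1) := by
  unfold ph vv
  rw [Finset.sum_comm, Finset.sum_comm (s := univ (α := Fin s)), ← Finset.sum_sub_distrib]
  refine Finset.sum_congr rfl fun j _ => ?_
  rw [← Finset.mul_sum, ← Finset.mul_sum]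
  push_cast
  ring

theorem vv_mem {s r M : ℕ} {z : (Fin s → ℕ) × (Fin s → ℕ)} (hz : z ∈ Tu s M ×ˢ Tu s M) :
    vv s r z ∈ Box s r M := by
  rw [Finset.mem_product] at hz
  have hb : ∀ (y : Fin s → ℕ), y ∈ Tu s M → ∀ j : ℕ,
      0 ≤ ∑ i, (y i : ℤ) ^ j ∧ ∑ i, (y i : ℤ) ^ j ≤ ((s * M ^ j : ℕ) : ℤ) := by
    intro y hy j
    constructor
    · exact Finset.sum_nonneg fun i _ => by positivity
    · have : ∀ i ∈ (univ : Finset (Fin s)), (y i : ℤ) ^ j ≤ ((M ^ j : ℕ) : ℤ) := fun i _ => by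
        have h1 := (Finset.mem_Icc.1 (Fintype.mem_piFinset.1 hy i)).2
        exact_mod_cast Nat.pow_le_pow_left h1 j
      calc ∑ i, (y i : ℤ) ^ j ≤ ∑ _i : Fin s, ((M ^ j : ℕ) : ℤ) := Finset.sum_le_sum this
        _ = ((s * M ^ j : ℕ) : ℤ) := by
          rw [Finset.sum_const, Finset.card_univ, Fintype.card_fin, nsmul_eq_mul]
          push_cast; ring
  unfold Box
  rw [Fintype.mem_piFinset]
  intro j
  have h1 := hb z.1 hz.1 ((j : ℕ) + 1)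
  have h2 := hb z.2 hz.2 ((j : ℕ) + 1)
  rw [Finset.mem_Icc]
  unfold vv
  constructor
  · linarith [h1.1, h2.2]
  · linarith [h1.2, h2.1]

/-- the inner sum -/
noncomputable def gg (r M : ℕ) (α : ℕ → ℝ) (x : ℕ) : ℂ := ∑ y ∈ Finset.Icc 1 M, ea (ph r α x y)

theorem gg_pow (s r M : ℕ) (α : ℕ → ℝ) (x : ℕ) :
    gg r M α x ^ s = ∑ y ∈ Tu s M, ea (∑ i, ph r α x (y i)) := by
  have h : gg r M α x ^ s = ∏ _i : Fin s, gg r M α x := by
    rw [Finset.prod_const, Finset.card_univ, Fintype.card_fin]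
  rw [h]
  unfold gg Tu
  rw [Finset.prod_univ_sum]
  refine Finset.sum_congr rfl fun y _ => ?_
  rw [ea_sum]

theorem gg_norm (s r M : ℕ) (α : ℕ → ℝ) (x : ℕ) :
    ((‖gg r M α x‖ ^ (2 * s) : ℝ) : ℂ) = ∑ z ∈ Tu s M ×ˢ Tu s M,
      ea (∑ j : Fin r, α (j + 1) * vv s r z j * (x : ℝ) ^ ((j : ℕ) + 1)) := by
  have h1 : ((‖gg r M α x‖ ^ (2 * s) : ℝ) : ℂ) =
      gg r M α x ^ s * (starRingEnd ℂ) (gg r M α x ^ s) := by
    rw [Complex.mul_conj', norm_pow]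
    push_cast
    rw [← pow_mul, mul_comm]
  rw [h1, gg_pow, map_sum, Finset.sum_mul_sum, Finset.sum_product]
  refine Finset.sum_congr rfl fun y _ => Finset.sum_congr rfl fun y' _ => ?_
  rw [ea_conj, ← ea_add, ← ph_sub s r α x (y, y'), sub_eq_add_neg]

theorem sum_gg (s r M : ℕ) (α : ℕ → ℝ) :
    ∑ x ∈ Finset.Icc 1 M, ‖gg r M α x‖ ^ (2 * s) ≤
      ∑ v ∈ Box s r M, (nv s r M v : ℝ) * ‖SS r M α v‖ := by
  have h1 : ((∑ x ∈ Finset.Icc 1 M, ‖gg r M α x‖ ^ (2 * s) : ℝ) : ℂ) =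
      ∑ z ∈ Tu s M ×ˢ Tu s M, SS r M α (vv s r z) := by
    rw [Complex.ofReal_sum, Finset.sum_congr rfl fun x _ => gg_norm s r M α x, Finset.sum_comm]
    rfl
  have h0 : 0 ≤ ∑ x ∈ Finset.Icc 1 M, ‖gg r M α x‖ ^ (2 * s) :=
    Finset.sum_nonneg fun x _ => by positivity
  have h2 : ∑ x ∈ Finset.Icc 1 M, ‖gg r M α x‖ ^ (2 * s) =
      ‖∑ z ∈ Tu s M ×ˢ Tu s M, SS r M α (vv s r z)‖ := by
    rw [← h1, Complex.norm_real, Real.norm_eq_abs, abs_of_nonneg h0]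
  rw [h2]
  refine (norm_sum_le _ _).trans (le_of_eq ?_)
  rw [← Finset.sum_fiberwise_of_maps_to (t := Box s r M) (g := vv s r) (fun z hz => vv_mem hz)]
  refine Finset.sum_congr rfl fun v _ => ?_
  have h3 : ∀ z ∈ (Tu s M ×ˢ Tu s M).filter (fun z => vv s r z = v),
      ‖SS r M α (vv s r z)‖ = ‖SS r M α v‖ := fun z hz => by
    rw [(Finset.mem_filter.1 hz).2]
  rw [Finset.sum_congr rfl h3, Finset.sum_const, nsmul_eq_mul]
  congr 2
  unfold nv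
  congr 1
  refine Finset.filter_congr fun z _ => ?_
  rw [funext_iff]
  rfl

theorem inner_le_aux {M : ℕ} (f : ℕ → ℝ) (hf : ∀ x, 0 ≤ f x) (hM : 1 ≤ M) (n : ℕ) :
    (∑ x ∈ Finset.Icc 1 M, f x) ^ (n + 1) ≤ (M : ℝ) ^ n * ∑ x ∈ Finset.Icc 1 M, f x ^ (n + 1) := by
  have h := pow_sum_div_card_le_sum_pow (s := Finset.Icc 1 M) (f := f) (n := n)
    (fun x _ => hf x)
  have hc : (Finset.Icc 1 M).card = M := by rw [Nat.card_Icc]; omega
  rw [hc, div_le_iff₀ (by positivity)] at h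
  linarith [h]

theorem da : S_DA := by
  intro s r M α hs hr hM
  have hTT : TT r M α = ∑ x ∈ Finset.Icc 1 M, gg r M α x := by
    unfold TT gg ea
    refine Finset.sum_congr rfl fun x _ => Finset.sum_congr rfl fun y _ => ?_
    rw [ph_eq]
  have h1 : ‖TT r M α‖ ≤ ∑ x ∈ Finset.Icc 1 M, ‖gg r M α x‖ := by
    rw [hTT]; exact norm_sum_le _ _
  obtain ⟨n, hn⟩ : ∃ n, 2 * s = n + 1 := ⟨2 * s - 1, by omega⟩
  have hn' : 2 * s - 1 = n := by omega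
  have h2 : (∑ x ∈ Finset.Icc 1 M, ‖gg r M α x‖) ^ (2 * s) ≤
      (M : ℝ) ^ (2 * s - 1) * ∑ x ∈ Finset.Icc 1 M, ‖gg r M α x‖ ^ (2 * s) := by
    have h := inner_le_aux (M := M) (fun x => ‖gg r M α x‖) (fun x => norm_nonneg _) hM n
    rw [hn, Nat.add_sub_cancel]
    exact h
  calc ‖TT r M α‖ ^ (2 * s) ≤ (∑ x ∈ Finset.Icc 1 M, ‖gg r M α x‖) ^ (2 * s) :=
        pow_le_pow_left₀ (norm_nonneg _) h1 _
    _ ≤ (M : ℝ) ^ (2 * s - 1) * ∑ x ∈ Finset.Icc 1 M, ‖gg r M α x‖ ^ (2 * s) := h2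
    _ ≤ _ := mul_le_mul_of_nonneg_left (sum_gg s r M α) (by positivity)

end Pool.Agent.Y309.VK
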